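import Pool.Agent.U397.SF.Fin

/-!
# The number of folded states of a strip grows at most like `3.5835^n`

`Pool.U397.SF.foldings n` is the number of folded states of a strip with `n` creases (file
`Pool/Agent/U397/SF/Spec.lean`): permutations `h` of the layers `0,…,n` (height of each layer)
with `Pool.U397.SF.NonPen n h`, i.e. creases at the same end do not interleave.
-/

set_option autoImplicit false

namespace Pool.Agent.Results.MP_8a1ce7_co.GrowthUpper

theorem result :
    (∀ n : ℕ, (Pool.U397.SF.foldings n : ℝ) ≤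
      10 ^ 23 * ((n : ℝ) + 1) ^ 2 * (3.5835 : ℝ) ^ n) ∧
    Filter.limsup (fun n : ℕ => (Pool.U397.SF.foldings n : ℝ) ^ ((1 : ℝ) / n)) Filter.atTop
      ≤ 3.5835 :=
  ⟨Pool.U397.SF.foldings_real, Pool.U397.SF.foldings_limsup⟩

end Pool.Agent.Results.MP_8a1ce7_co.GrowthUpper
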